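import Pool.Agent.Y883.GJ.Stm4

set_option autoImplicit false

/-! Square mean bound for the ternary linear equation: counting and Cauchy-Schwarz. -/

namespace Pool.Agent.Y756.GJ

open Finset

/-- number of elements of a set of naturals up to `P` pairwise congruent mod `m` -/
lemma card_class (P m : ℕ) (S : Finset ℕ) (hS : ∀ x ∈ S, x ≤ P)
    (hc : ∀ x ∈ S, ∀ x' ∈ S, (m : ℤ) ∣ ((x : ℤ) - x')) : S.card ≤ P / m + 1 := by
  have h : S.card ≤ (range (P / m + 1)).card := by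
    apply Finset.card_le_card_of_injOn (fun x => x / m)
    · intro x hx
      have := hS x (by simpa using hx)
      simp only [coe_range, Set.mem_Iio]
      have := Nat.div_le_div_right (c := m) this
      omega
    · intro x hx x' hx' hxx
      have hd := hc x (by simpa using hx) x' (by simpa using hx')
      have h1 : x % m = x' % m := by
        have : (x' : ℤ) ≡ x [ZMOD m] := (Int.modEq_iff_dvd).2 hd
        have h2 : x' ≡ x [MOD m] := (Int.natCast_modEq_iff).1 this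
        exact h2.symm
      have hxx' : x / m = x' / m := hxx
      calc x = m * (x / m) + x % m := (Nat.div_add_mod x m).symm
        _ = m * (x' / m) + x' % m := by rw [hxx', h1]
        _ = x' := Nat.div_add_mod x' m
  simpa using h

/-- the inner sum -/
lemma inner_bound (c2 c3 e : ℤ) (h2 : c2 ≠ 0) (h3 : c3 ≠ 0) (A B : Finset ℕ) (G2 G3 : ℕ → ℂ) :
    ‖∑ y ∈ A, ∑ z ∈ B, if c2 * y + c3 * z = e then G2 y * G3 z else 0‖ ^ 2 ≤
      (∑ y ∈ A.filter (fun y : ℕ => c3 ∣ (e - c2 * y)), ‖G2 y‖ ^ 2) *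
        ∑ z ∈ B.filter (fun z : ℕ => c2 ∣ (e - c3 * z)), ‖G3 z‖ ^ 2 := by
  classical
  set M := (A ×ˢ B).filter (fun p : ℕ × ℕ => c2 * p.1 + c3 * p.2 = e) with hM
  have e1 : (∑ y ∈ A, ∑ z ∈ B, if c2 * y + c3 * z = e then G2 y * G3 z else 0) =
      ∑ p ∈ M, G2 p.1 * G3 p.2 := by
    rw [hM, Finset.sum_filter, Finset.sum_product]
  rw [e1]
  have i1 : ‖∑ p ∈ M, G2 p.1 * G3 p.2‖ ≤ ∑ p ∈ M, ‖G2 p.1‖ * ‖G3 p.2‖ := by
    refine (norm_sum_le _ _).trans (Finset.sum_le_sum fun p _ => ?_)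
    rw [norm_mul]
  have i2 : ‖∑ p ∈ M, G2 p.1 * G3 p.2‖ ^ 2 ≤ (∑ p ∈ M, ‖G2 p.1‖ ^ 2) * ∑ p ∈ M, ‖G3 p.2‖ ^ 2 :=
    (pow_le_pow_left₀ (norm_nonneg _) i1 2).trans (Finset.sum_mul_sq_le_sq_mul_sq _ _ _)
  refine i2.trans ?_
  have i3 : (∑ p ∈ M, ‖G2 p.1‖ ^ 2) ≤ ∑ y ∈ A.filter (fun y : ℕ => c3 ∣ (e - c2 * y)), ‖G2 y‖ ^ 2 := by
    have inj : Set.InjOn (fun p : ℕ × ℕ => p.1) (M : Set (ℕ × ℕ)) := by
      intro p hp p' hp' hpp
      have hp1 : c2 * p.1 + c3 * p.2 = e := by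
        have := hp; simp only [hM, coe_filter, mem_product, Set.mem_ofPred_eq] at this; exact this.2
      have hp2 : c2 * p'.1 + c3 * p'.2 = e := by
        have := hp'; simp only [hM, coe_filter, mem_product, Set.mem_ofPred_eq] at this; exact this.2
      have hpp' : p.1 = p'.1 := hpp
      rw [← hp2, hpp'] at hp1
      have : c3 * (p.2 : ℤ) = c3 * p'.2 := by linarith
      have := mul_left_cancel₀ h3 this
      exact Prod.ext hpp' (by exact_mod_cast this)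
    rw [← Finset.sum_image (s := M) (g := fun p : ℕ × ℕ => p.1) (f := fun y => ‖G2 y‖ ^ 2) inj]
    refine Finset.sum_le_sum_of_subset_of_nonneg ?_ (fun _ _ _ => by positivity)
    intro y hy
    obtain ⟨p, hp, rfl⟩ := Finset.mem_image.1 hy
    simp only [hM, mem_filter, mem_product] at hp ⊢
    refine ⟨hp.1.1, ⟨p.2, ?_⟩⟩
    linarith [hp.2]
  have i4 : (∑ p ∈ M, ‖G3 p.2‖ ^ 2) ≤ ∑ z ∈ B.filter (fun z : ℕ => c2 ∣ (e - c3 * z)), ‖G3 z‖ ^ 2 := by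
    have inj : Set.InjOn (fun p : ℕ × ℕ => p.2) (M : Set (ℕ × ℕ)) := by
      intro p hp p' hp' hpp
      have hp1 : c2 * p.1 + c3 * p.2 = e := by
        have := hp; simp only [hM, coe_filter, mem_product, Set.mem_ofPred_eq] at this; exact this.2
      have hp2 : c2 * p'.1 + c3 * p'.2 = e := by
        have := hp'; simp only [hM, coe_filter, mem_product, Set.mem_ofPred_eq] at this; exact this.2
      have hpp' : p.2 = p'.2 := hpp
      rw [← hp2, hpp'] at hp1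
      have : c2 * (p.1 : ℤ) = c2 * p'.1 := by linarith
      have := mul_left_cancel₀ h2 this
      exact Prod.ext (by exact_mod_cast this) hpp'
    rw [← Finset.sum_image (s := M) (g := fun p : ℕ × ℕ => p.2) (f := fun y => ‖G3 y‖ ^ 2) inj]
    refine Finset.sum_le_sum_of_subset_of_nonneg ?_ (fun _ _ _ => by positivity)
    intro z hz
    obtain ⟨p, hp, rfl⟩ := Finset.mem_image.1 hz
    simp only [hM, mem_filter, mem_product] at hp ⊢
    refine ⟨hp.1.2, ⟨p.1, ?_⟩⟩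
    linarith [hp.2]
  exact mul_le_mul i3 i4 (Finset.sum_nonneg fun _ _ => by positivity)
    (Finset.sum_nonneg fun _ _ => by positivity)

/-- the whole bound -/
lemma hold_core (c1 c2 c3 d : ℤ) (h2 : c2 ≠ 0) (h3 : c3 ≠ 0) (h12 : IsCoprime c1 c2)
    (h13 : IsCoprime c1 c3) (h23 : IsCoprime c2 c3) (P : ℕ) (A B : Finset ℕ) (G1 G2 G3 : ℕ → ℂ) :
    ‖∑ x ∈ Icc 1 P, ∑ y ∈ A, ∑ z ∈ B, if c1 * x + c2 * y + c3 * z = d then G1 x * G2 y * G3 z else 0‖ ^ 2 ≤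
      ((P / (c2.natAbs * c3.natAbs) + 1 : ℕ) : ℝ) * ((∑ x ∈ Icc 1 P, ‖G1 x‖ ^ 2) *
        (∑ y ∈ A, ‖G2 y‖ ^ 2) * ∑ z ∈ B, ‖G3 z‖ ^ 2) := by
  classical
  have e1 : (∑ x ∈ Icc 1 P, ∑ y ∈ A, ∑ z ∈ B,
      if c1 * x + c2 * y + c3 * z = d then G1 x * G2 y * G3 z else 0) =
      ∑ x ∈ Icc 1 P, G1 x * ∑ y ∈ A, ∑ z ∈ B,
        if c2 * y + c3 * z = d - c1 * x then G2 y * G3 z else 0 := by
    refine Finset.sum_congr rfl fun x _ => ?_
    rw [Finset.mul_sum]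
    refine Finset.sum_congr rfl fun y _ => ?_
    rw [Finset.mul_sum]
    refine Finset.sum_congr rfl fun z _ => ?_
    by_cases h : c1 * (x : ℤ) + c2 * y + c3 * z = d
    · have h' : c2 * (y : ℤ) + c3 * z = d - c1 * x := by linarith
      rw [if_pos h, if_pos h', mul_assoc]
    · have h' : ¬ (c2 * (y : ℤ) + c3 * z = d - c1 * x) := fun h' => h (by linarith)
      rw [if_neg h, if_neg h', mul_zero]
  rw [e1]
  set S : ℕ → ℂ := fun x => ∑ y ∈ A, ∑ z ∈ B,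
        if c2 * y + c3 * z = d - c1 * x then G2 y * G3 z else 0 with hS
  have i1 : ‖∑ x ∈ Icc 1 P, G1 x * S x‖ ^ 2 ≤
      (∑ x ∈ Icc 1 P, ‖G1 x‖ ^ 2) * ∑ x ∈ Icc 1 P, ‖S x‖ ^ 2 := by
    have j1 : ‖∑ x ∈ Icc 1 P, G1 x * S x‖ ≤ ∑ x ∈ Icc 1 P, ‖G1 x‖ * ‖S x‖ := by
      refine (norm_sum_le _ _).trans (Finset.sum_le_sum fun p _ => ?_)
      rw [norm_mul]
    exact (pow_le_pow_left₀ (norm_nonneg _) j1 2).trans (Finset.sum_mul_sq_le_sq_mul_sq _ _ _)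
  have i2 : (∑ x ∈ Icc 1 P, ‖S x‖ ^ 2) ≤ ((P / (c2.natAbs * c3.natAbs) + 1 : ℕ) : ℝ) *
      ((∑ y ∈ A, ‖G2 y‖ ^ 2) * ∑ z ∈ B, ‖G3 z‖ ^ 2) := by
    have j1 : (∑ x ∈ Icc 1 P, ‖S x‖ ^ 2) ≤ ∑ x ∈ Icc 1 P, ∑ y ∈ A, ∑ z ∈ B,
        if c3 ∣ (d - c1 * x - c2 * y) ∧ c2 ∣ (d - c1 * x - c3 * z) then ‖G2 y‖ ^ 2 * ‖G3 z‖ ^ 2 else 0 := by
      refine Finset.sum_le_sum fun x _ => ?_
      refine (inner_bound c2 c3 (d - c1 * x) h2 h3 A B G2 G3).trans (le_of_eq ?_)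
      rw [Finset.sum_filter, Finset.sum_filter, Finset.sum_mul_sum]
      refine Finset.sum_congr rfl fun y _ => Finset.sum_congr rfl fun z _ => ?_
      by_cases ha : c3 ∣ (d - c1 * x - c2 * y)
      · by_cases hb : c2 ∣ (d - c1 * x - c3 * z)
        · simp [ha, hb]
        · simp [hb]
      · simp [ha]
    refine j1.trans ?_
    rw [Finset.sum_comm]
    have j2 : ∀ y ∈ A, (∑ x ∈ Icc 1 P, ∑ z ∈ B,
        if c3 ∣ (d - c1 * x - c2 * y) ∧ c2 ∣ (d - c1 * x - c3 * z) then ‖G2 y‖ ^ 2 * ‖G3 z‖ ^ 2 else 0) ≤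
        ∑ z ∈ B, ((P / (c2.natAbs * c3.natAbs) + 1 : ℕ) : ℝ) * (‖G2 y‖ ^ 2 * ‖G3 z‖ ^ 2) := by
      intro y _
      rw [Finset.sum_comm]
      refine Finset.sum_le_sum fun z _ => ?_
      rw [← Finset.sum_filter, Finset.sum_const, nsmul_eq_mul]
      refine mul_le_mul_of_nonneg_right ?_ (by positivity)
      have := card_class P (c2.natAbs * c3.natAbs) ((Icc 1 P).filter (fun x : ℕ =>
        c3 ∣ (d - c1 * x - c2 * y) ∧ c2 ∣ (d - c1 * x - c3 * z)))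
        (fun x hx => (Finset.mem_Icc.1 (Finset.mem_filter.1 hx).1).2) ?_
      · exact_mod_cast this
      · intro x hx x' hx'
        have hx := (Finset.mem_filter.1 hx).2
        have hx' := (Finset.mem_filter.1 hx').2
        have k3 : c3 ∣ ((x : ℤ) - x') := by
          have : c3 ∣ c1 * ((x : ℤ) - x') := by
            have := dvd_sub hx'.1 hx.1
            have e : d - c1 * (x' : ℤ) - c2 * y - (d - c1 * x - c2 * y) = c1 * ((x : ℤ) - x') := by ring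
            rwa [e] at this
          exact h13.symm.dvd_of_dvd_mul_left this
        have k2 : c2 ∣ ((x : ℤ) - x') := by
          have : c2 ∣ c1 * ((x : ℤ) - x') := by
            have := dvd_sub hx'.2 hx.2
            have e : d - c1 * (x' : ℤ) - c3 * z - (d - c1 * x - c3 * z) = c1 * ((x : ℤ) - x') := by ring
            rwa [e] at this
          exact h12.symm.dvd_of_dvd_mul_left this
        have k := h23.mul_dvd k2 k3
        rw [← Int.natAbs_mul]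
        exact Int.natAbs_dvd.2 k
    refine (Finset.sum_le_sum j2).trans (le_of_eq ?_)
    rw [Finset.sum_mul_sum, Finset.mul_sum]
    refine Finset.sum_congr rfl fun y _ => ?_
    rw [Finset.mul_sum]
  calc ‖∑ x ∈ Icc 1 P, G1 x * S x‖ ^ 2 ≤ (∑ x ∈ Icc 1 P, ‖G1 x‖ ^ 2) * ∑ x ∈ Icc 1 P, ‖S x‖ ^ 2 := i1
    _ ≤ (∑ x ∈ Icc 1 P, ‖G1 x‖ ^ 2) * (((P / (c2.natAbs * c3.natAbs) + 1 : ℕ) : ℝ) *
      ((∑ y ∈ A, ‖G2 y‖ ^ 2) * ∑ z ∈ B, ‖G3 z‖ ^ 2)) :=
        mul_le_mul_of_nonneg_left i2 (Finset.sum_nonneg fun _ _ => by positivity)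
    _ = _ := by ring

open Pool.Agent.Y883.GJ in
/-- HOLD: the trivial estimate in square mean -/
theorem hold : Pool.Agent.Y883.GJ.HoldStm := by
  intro c1 c2 c3 d P1 P2 P3 G1 G2 G3 _ h2 h3 h12 h13 h23
  have h := hold_core c1 c2 c3 d h2 h3 h12 h13 h23 P1 (Icc 1 P2) (Icc 1 P3) G1 G2 G3
  have e : ((P1 / (c2.natAbs * c3.natAbs) + 1 : ℕ) : ℝ) ≤ (P1 : ℝ) / (c2.natAbs * c3.natAbs) + 1 := by
    rw [Nat.cast_add, Nat.cast_one]
    have := @Nat.cast_div_le ℝ _ _ _ P1 (c2.natAbs * c3.natAbs)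
    rw [Nat.cast_mul] at this
    linarith
  have n1 : 0 ≤ ∑ n ∈ Icc 1 P1, ‖G1 n‖ ^ 2 := Finset.sum_nonneg fun _ _ => by positivity
  have n2 : 0 ≤ ∑ n ∈ Icc 1 P2, ‖G2 n‖ ^ 2 := Finset.sum_nonneg fun _ _ => by positivity
  have n3 : 0 ≤ ∑ n ∈ Icc 1 P3, ‖G3 n‖ ^ 2 := Finset.sum_nonneg fun _ _ => by positivity
  have h' := h.trans (mul_le_mul_of_nonneg_right e (mul_nonneg (mul_nonneg n1 n2) n3))
  refine (le_trans ?_ h').trans (le_of_eq (by ring))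
  exact le_of_eq rfl

end Pool.Agent.Y756.GJ
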